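import Pool.Agent.H11.LGR.Targets

/-!
# SPN: the span of the products of `dim A` elements of `X` (MP_335823_al)
-/

set_option autoImplicit false

open MvPolynomial Pool.Agent.H87.CLG Pool.Agent.H11.LGR

namespace Pool.Agent.H1.LGR

/-- the span of the products of `k` elements of `X` -/
def Sk {F A Γ : Type} [Field F] [Ring A] [Algebra F A] [Group Γ] (X : Set Γ) (ρ : Γ →* A)
    (k : ℕ) : Submodule F A :=
  Submodule.span F {a | ∃ l : List Γ, (∀ x ∈ l, x ∈ X) ∧ l.length = k ∧ ρ l.prod = a}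

theorem Sk_mono {F A Γ : Type} [Field F] [Ring A] [Algebra F A] [Group Γ] (X : Set Γ)
    (ρ : Γ →* A) (hX : GX X) : Monotone (Sk (F := F) X ρ) := by
  refine monotone_nat_of_le_succ fun k => ?_
  refine Submodule.span_mono ?_
  rintro a ⟨l, h1, h2, h3⟩
  refine ⟨1 :: l, ?_, ?_, ?_⟩
  · intro x hx
    rcases List.mem_cons.1 hx with rfl | hx
    · exact hX.one
    · exact h1 x hx
  · rw [List.length_cons, h2]
  · rw [List.prod_cons, one_mul, h3]

theorem Sk_step {F A Γ : Type} [Field F] [Ring A] [Algebra F A] [Group Γ] (X : Set Γ)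
    (ρ : Γ →* A) (k : ℕ) (h : Sk (F := F) X ρ (k + 1) ≤ Sk X ρ k) :
    Sk (F := F) X ρ (k + 2) ≤ Sk X ρ (k + 1) := by
  refine Submodule.span_le.2 ?_
  rintro a ⟨l, h1, h2, rfl⟩
  cases l with
  | nil => simp at h2
  | cons x l =>
    rw [List.length_cons] at h2
    have h3 : ρ l.prod ∈ Sk (F := F) X ρ k := h (Submodule.subset_span
      ⟨l, fun y hy => h1 y (List.mem_cons_of_mem x hy), by omega, rfl⟩)
    rw [List.prod_cons, map_mul, SetLike.mem_coe]
    have h4 : Sk (F := F) X ρ k ≤ (Sk (F := F) X ρ (k + 1)).comap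
        (LinearMap.mulLeft F (ρ x)) := by
      refine Submodule.span_le.2 ?_
      rintro b ⟨l', h1', h2', rfl⟩
      rw [SetLike.mem_coe, Submodule.mem_comap, LinearMap.mulLeft_apply, ← map_mul,
        ← List.prod_cons]
      refine Submodule.subset_span ⟨x :: l', ?_, by rw [List.length_cons, h2'], rfl⟩
      intro y hy
      rcases List.mem_cons.1 hy with rfl | hy
      · exact h1 y List.mem_cons_self
      · exact h1' y hy
    exact h4 h3

theorem Sk_stable {F A Γ : Type} [Field F] [Ring A] [Algebra F A] [Group Γ] (X : Set Γ)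
    (ρ : Γ →* A) (k : ℕ) (h : Sk (F := F) X ρ (k + 1) ≤ Sk X ρ k) (j : ℕ) :
    Sk (F := F) X ρ (k + j + 1) ≤ Sk X ρ (k + j) ∧ Sk (F := F) X ρ (k + j) ≤ Sk X ρ k := by
  induction j with
  | zero => exact ⟨h, le_rfl⟩
  | succ j ih =>
    exact ⟨Sk_step X ρ (k + j) ih.1, ih.1.trans ih.2⟩

theorem Sk_finrank {F A Γ : Type} [Field F] [Ring A] [Algebra F A] [FiniteDimensional F A]
    [Group Γ] [Nontrivial A] (X : Set Γ) (ρ : Γ →* A) (hX : GX X) (k : ℕ)
    (h : ∀ i < k, ¬ Sk (F := F) X ρ (i + 1) ≤ Sk X ρ i) :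
    k + 1 ≤ Module.finrank F (Sk (F := F) X ρ k) := by
  induction k with
  | zero =>
    rw [zero_add, Nat.one_le_iff_ne_zero]
    intro h0
    have h1 : Sk (F := F) X ρ 0 = ⊥ := Submodule.finrank_eq_zero.1 h0
    have h2 : (1 : A) ∈ Sk (F := F) X ρ 0 := Submodule.subset_span
      ⟨[], by simp, rfl, by simp⟩
    rw [h1, Submodule.mem_bot] at h2
    exact one_ne_zero h2
  | succ k ih =>
    have h1 := ih fun i hi => h i (by omega)
    have h2 : Sk (F := F) X ρ k < Sk X ρ (k + 1) :=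
      lt_of_le_not_ge (Sk_mono X ρ hX (Nat.le_succ k)) (h k (by omega))
    have h3 := Submodule.finrank_lt_finrank_of_lt h2
    omega

theorem pf_SPN : T_SPN := by
  intro F A Γ _ _ _ _ _ X ρ hX N hN g
  have hg : g ∈ Submonoid.closure (X ∪ X⁻¹) := by
    rw [← Subgroup.closure_toSubmonoid, hX.gen]
    trivial
  obtain ⟨l, hl, rfl⟩ := Submonoid.exists_list_of_mem_closure hg
  have hl' : ∀ x ∈ l, x ∈ X := by
    intro x hx
    rcases hl x hx with h | h
    · exact h
    · have := hX.inv _ (Set.mem_inv.1 h)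
      rwa [inv_inv] at this
  rcases subsingleton_or_nontrivial A with hA | hA
  · rw [Subsingleton.elim (ρ l.prod) 0]
    exact Submodule.zero_mem _
  · obtain ⟨k, hk, hk2⟩ : ∃ k < Module.finrank F A, Sk (F := F) X ρ (k + 1) ≤ Sk X ρ k := by
      by_contra hcon
      push Not at hcon
      have h1 := Sk_finrank (F := F) X ρ hX (Module.finrank F A) hcon
      have h2 := Submodule.finrank_le (Sk (F := F) X ρ (Module.finrank F A))
      omega
    have h1 : ρ l.prod ∈ Sk (F := F) X ρ l.length := Submodule.subset_span ⟨l, hl', rfl, rfl⟩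
    have h2 : ρ l.prod ∈ Sk (F := F) X ρ (k + l.length) :=
      Sk_mono X ρ hX (Nat.le_add_left _ _) h1
    have h3 : ρ l.prod ∈ Sk (F := F) X ρ k := (Sk_stable X ρ k hk2 l.length).2 h2
    exact Sk_mono X ρ hX (by omega : k ≤ N) h3

end Pool.Agent.H1.LGR
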