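import Pool.Agent.H11.LGR.Targets

/-!
# TRF: the traces of the endomorphisms of order `m` (MP_335823_al)
-/

set_option autoImplicit false

open MvPolynomial Pool.Agent.H87.CLG Pool.Agent.H11.LGR

namespace Pool.Agent.H1.LGR

open scoped Pointwise in
theorem sum_mem_nsmul' {F : Type} [AddCommMonoid F] [DecidableEq F] (Z : Finset F)
    (h0 : (0 : F) ∈ Z) : ∀ (n : ℕ) (s : Multiset F), Multiset.card s ≤ n → (∀ a ∈ s, a ∈ Z) →
    s.sum ∈ n • Z := by
  intro n
  induction n with
  | zero =>
    intro s hs _
    have : s = 0 := Multiset.card_eq_zero.1 (Nat.le_zero.1 hs)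
    rw [this, Multiset.sum_zero, zero_nsmul]
    exact Finset.zero_mem_zero
  | succ n ih =>
    intro s hs hZ
    rw [succ_nsmul]
    rcases Multiset.empty_or_exists_mem s with h | ⟨a, ha⟩
    · rw [h, Multiset.sum_zero]
      refine Finset.mem_add.2 ⟨0, ?_, 0, h0, add_zero 0⟩
      have := ih 0 (by simp) (by simp)
      rwa [Multiset.sum_zero] at this
    · obtain ⟨t, rfl⟩ := Multiset.exists_cons_of_mem ha
      rw [Multiset.sum_cons]
      refine Finset.mem_add.2 ⟨t.sum, ih t ?_ ?_, a, hZ a (Multiset.mem_cons_self a t),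
        add_comm _ _⟩
      · rw [Multiset.card_cons] at hs
        omega
      · intro b hb
        exact hZ b (Multiset.mem_cons_of_mem hb)

open scoped Pointwise in
theorem pf_TRF : T_TRF := by
  classical
  intro F _ _ m n hm
  have hX : (Polynomial.X ^ m - 1 : Polynomial F) ≠ 0 := by
    rw [← Polynomial.C_1]
    exact Polynomial.X_pow_sub_C_ne_zero hm 1
  refine ⟨n • (insert 0 (Polynomial.X ^ m - 1 : Polynomial F).roots.toFinset), ?_, ?_⟩
  · refine (Finset.card_nsmul_le).trans ?_
    refine Nat.pow_le_pow_left ?_ n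
    refine (Finset.card_insert_le _ _).trans ?_
    have h1 := Multiset.toFinset_card_le (Polynomial.X ^ m - 1 : Polynomial F).roots
    have h2 := Polynomial.card_roots' (Polynomial.X ^ m - 1 : Polynomial F)
    have h3 : (Polynomial.X ^ m - 1 : Polynomial F).natDegree = m := by
      rw [← Polynomial.C_1]
      exact Polynomial.natDegree_X_pow_sub_C
    omega
  · intro W _ _ _ f hn hf
    rw [Module.End.trace_eq_sum_roots_charpoly_of_splits (IsAlgClosed.splits _)]
    refine sum_mem_nsmul' _ (Finset.mem_insert_self _ _) n _ ?_ ?_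
    · refine (Polynomial.card_roots' _).trans ?_
      rw [LinearMap.charpoly_natDegree]
      exact hn
    · intro c hc
      refine Finset.mem_insert_of_mem ?_
      rw [Multiset.mem_toFinset, Polynomial.mem_roots hX]
      have h1 : f.HasEigenvalue c := by
        rw [Module.End.hasEigenvalue_iff_isRoot_charpoly]
        exact Polynomial.isRoot_of_mem_roots hc
      obtain ⟨v, hv⟩ := h1.exists_hasEigenvector
      have h2 : (f ^ m) v = c ^ m • v := hv.pow_apply m
      rw [hf, Module.End.one_apply] at h2
      have h3 : (c ^ m - 1) • v = 0 := by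
        rw [sub_smul, one_smul, ← h2, sub_self]
      have h4 : c ^ m - 1 = 0 := (smul_eq_zero.1 h3).resolve_right hv.2
      simp [Polynomial.IsRoot.def, h4]

end Pool.Agent.H1.LGR
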